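import Pool.Agent.Helper80.AD.GoalsA

/-!
# Project AD (MP_6af536_nt), packet PLUS: constants as elements
-/

set_option autoImplicit false

open Filter Topology

noncomputable section

namespace Pool.Agent.Helper19.AD

open Pool.Agent.Helper80.AD

theorem perm_succAbove {k : ℕ} (σ : Equiv.Perm (Fin (k + 1))) (i : Fin (k + 1)) :
    ∃ τ : Equiv.Perm (Fin k), ∀ s, σ (i.succAbove s) = (σ i).succAbove (τ s) := by
  let e1 : Fin k ≃ {x : Fin (k + 1) // x ≠ i} := finSuccAboveEquiv i
  let e2 : Fin k ≃ {x : Fin (k + 1) // x ≠ σ i} := finSuccAboveEquiv (σ i)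
  let e3 : {x : Fin (k + 1) // x ≠ i} ≃ {x : Fin (k + 1) // x ≠ σ i} :=
    σ.subtypeEquiv (fun a => by simp)
  refine ⟨(e1.trans e3).trans e2.symm, fun s => ?_⟩
  have h : e2 (((e1.trans e3).trans e2.symm) s) = e3 (e1 s) := by simp
  have h2 := congrArg Subtype.val h
  exact h2.symm

open Classical in
/-- the extended functional -/
def Ep {k : ℕ} {B : Type} (b0 : B) (E : (Fin (k + 1) → B) → ℝ) (D : (Fin k → B) → ℝ) (G : ℝ)
    (Y : Fin (k + 1) → Option B) : ℝ :=
  (if ∀ i, Y i ≠ none then E (fun i => (Y i).getD b0) else 0) +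
  ∑ i, if Y i = none ∧ ∀ j, j ≠ i → Y j ≠ none then
    G * D (fun s => (Y (i.succAbove s)).getD b0) else 0

section

variable {k : ℕ} {B : Type} (b0 : B) (E : (Fin (k + 1) → B) → ℝ) (D : (Fin k → B) → ℝ) (G : ℝ)

theorem Ep_all (Y : Fin (k + 1) → Option B) (h : ∀ i, Y i ≠ none) :
    Ep b0 E D G Y = E (fun i => (Y i).getD b0) := by
  unfold Ep
  rw [if_pos h, Finset.sum_eq_zero, add_zero]
  intro i _
  rw [if_neg]
  exact fun h' => h i h'.1

theorem Ep_one (Y : Fin (k + 1) → Option B) (i : Fin (k + 1)) (h : Y i = none)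
    (h' : ∀ j, j ≠ i → Y j ≠ none) :
    Ep b0 E D G Y = G * D (fun s => (Y (i.succAbove s)).getD b0) := by
  unfold Ep
  rw [if_neg (fun h2 => h2 i h), zero_add, Finset.sum_eq_single i]
  · rw [if_pos ⟨h, h'⟩]
  · intro j _ hj
    rw [if_neg]
    exact fun h2 => h' j hj h2.1
  · intro h2
    exact absurd (Finset.mem_univ i) h2

theorem Ep_two (Y : Fin (k + 1) → Option B) (i j : Fin (k + 1)) (hij : i ≠ j) (hi : Y i = none)
    (hj : Y j = none) : Ep b0 E D G Y = 0 := by
  unfold Ep
  rw [if_neg (fun h2 => h2 i hi), zero_add, Finset.sum_eq_zero]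
  intro l _
  rw [if_neg]
  rintro ⟨_, h2⟩
  by_cases hl : i = l
  · subst hl
    exact h2 j (Ne.symm hij) hj
  · exact h2 i hl hi

theorem Ep_sym (hE : ∀ (σ : Equiv.Perm (Fin (k + 1))) (Y : Fin (k + 1) → B), E (Y ∘ σ) = E Y)
    (hD : ∀ (σ : Equiv.Perm (Fin k)) (Z : Fin k → B), D (Z ∘ σ) = D Z)
    (σ : Equiv.Perm (Fin (k + 1))) (Y : Fin (k + 1) → Option B) :
    Ep b0 E D G (Y ∘ σ) = Ep b0 E D G Y := by
  by_cases h0 : ∀ i, Y i ≠ none
  · rw [Ep_all _ _ _ _ Y h0, Ep_all _ _ _ _ (Y ∘ σ) (fun i => h0 (σ i))]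
    exact hE σ (fun i => (Y i).getD b0)
  push Not at h0
  obtain ⟨i, hi⟩ := h0
  by_cases h1 : ∀ j, j ≠ i → Y j ≠ none
  · rw [Ep_one _ _ _ _ _ i hi h1, Ep_one _ _ _ _ _ (σ.symm i) (by simp [hi]) (fun j hj => by
      refine h1 (σ j) fun h2 => hj ?_
      rw [← h2, Equiv.symm_apply_apply])]
    obtain ⟨τ, hτ⟩ := perm_succAbove σ (σ.symm i)
    congr 1
    have e : (fun s => ((Y ∘ σ) ((σ.symm i).succAbove s)).getD b0) =
        (fun s => (Y (i.succAbove s)).getD b0) ∘ τ := by
      funext s
      simp only [Function.comp]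
      rw [hτ s, Equiv.apply_symm_apply]
    rw [e, hD]
  · push Not at h1
    obtain ⟨j, hj, hj'⟩ := h1
    rw [Ep_two _ _ _ _ _ j i hj hj' hi, Ep_two _ _ _ _ _ (σ.symm j) (σ.symm i)
      (fun h => hj (σ.symm.injective h)) (by simp [hj']) (by simp [hi])]

theorem Ep_nonneg (hE : ∀ Y, 0 ≤ E Y) (hD : ∀ Z, 0 ≤ D Z) (hG : 0 ≤ G)
    (Y : Fin (k + 1) → Option B) : 0 ≤ Ep b0 E D G Y := by
  unfold Ep
  refine add_nonneg ?_ (Finset.sum_nonneg fun i _ => ?_)
  · split_ifs
    · exact hE _
    · exact le_rfl
  · split_ifs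
    · exact mul_nonneg hG (hD _)
    · exact le_rfl

end

theorem plus : S_PLUS := by
  classical
  intro k B P _ h cst Pr E₀ D G E C hX
  let b0 : B := Classical.arbitrary B
  refine ⟨Ep b0 E D G, ⟨?_, ?_, ?_, ?_⟩, ?_, ?_, ?_⟩
  · exact fun σ Y => Ep_sym b0 E D G hX.symE hX.symD σ Y
  · exact fun Y => Ep_nonneg b0 E D G hX.E0 (fun Z => le_trans zero_le_one (hX.D1 Z)) hX.Gn Y
  · intro o v
    cases o with
    | none => exact hX.cn v
    | some b => exact hX.hn b v
  · intro m a b p hp hle z
    set a' : Fin (m + 1) → ℤ := Fin.cons 0 (fun i => if b i = none then 0 else a i) with ha'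
    set b' : Fin (m + 1) → B := Fin.cons b0 (fun i => (b i).getD b0) with hb'
    set t : ℤ := ∑ i, if b i = none then a i else 0 with ht
    have hle' : ∀ v, p v ≤ ∑ i, (a' i : ℝ) * h (b' i) v + t * cst v := by
      intro v
      refine (hle v).trans (le_of_eq ?_)
      rw [Fin.sum_univ_succ]
      simp only [ha', hb', Fin.cons_zero, Fin.cons_succ, Int.cast_zero, zero_mul, zero_add]
      rw [ht, Int.cast_sum, Finset.sum_mul, ← Finset.sum_add_distrib]
      refine Finset.sum_congr rfl fun i _ => ?_
      cases hbi : b i with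
      | none => simp [hO]
      | some c => simp [hO]
    by_cases hz0 : ∀ l, z l ≠ none
    · -- all `some`
      have key := hX.pos m a' b' t p hp hle' (fun l => (z l).getD b0)
      refine key.trans (le_of_eq ?_)
      rw [Fin.sum_univ_succ]
      simp only [ha', hb', Fin.cons_zero, Fin.cons_succ, Int.cast_zero, zero_mul, zero_add]
      rw [ht, Int.cast_sum, mul_assoc, Finset.sum_mul, ← Finset.sum_add_distrib]
      refine Finset.sum_congr rfl fun i _ => ?_
      cases hbi : b i with
      | none =>
        rw [Ep_one b0 E D G _ 0 (by simp) (fun j hj => by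
          obtain ⟨l, rfl⟩ := Fin.exists_succ_eq.2 hj
          simpa using hz0 l)]
        simp
      | some c =>
        rw [Ep_all b0 E D G _ (fun j => by
          refine Fin.cases ?_ (fun l => ?_) j
          · simp
          · simpa using hz0 l)]
        simp only [reduceCtorEq, if_false, Int.cast_zero, zero_mul, add_zero, Option.getD_some]
        congr 2
        funext j
        refine Fin.cases ?_ (fun l => ?_) j
        · simp
        · simp
    push Not at hz0
    obtain ⟨l, hl⟩ := hz0
    by_cases hz1 : ∀ j, j ≠ l → z j ≠ none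
    · -- exactly one `none`
      have key := hX.deg m a' b' t p hp hle' (fun l => (z l).getD b0) l
      have key2 := mul_nonneg hX.Gn key
      refine key2.trans (le_of_eq ?_)
      rw [Fin.sum_univ_succ]
      simp only [ha', hb', Fin.cons_zero, Fin.cons_succ, Int.cast_zero, zero_mul, zero_add]
      rw [Finset.mul_sum]
      refine Finset.sum_congr rfl fun i _ => ?_
      cases hbi : b i with
      | none =>
        rw [Ep_two b0 E D G _ 0 l.succ (Fin.succ_ne_zero l).symm (by simp) (by simpa using hl)]
        simp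
      | some c =>
        rw [Ep_one b0 E D G _ l.succ (by simpa using hl) (fun j hj => by
          revert hj
          refine Fin.cases ?_ (fun l' => ?_) j
          · intro _
            simp
          · intro hj
            simpa using hz1 l' (fun h2 => hj (by rw [h2])))]
        simp only [reduceCtorEq, if_false, Option.getD_some]
        obtain ⟨τ, hτ⟩ := perm_succAbove (Equiv.swap 0 l.succ) 0
        have e : (fun s => ((Fin.cons (some c) z : Fin (k + 1) → Option B)
            (l.succ.succAbove s)).getD b0) ∘ τ =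
            Function.update (fun l => (z l).getD b0) l c := by
          funext s
          have h1 := hτ s
          rw [Equiv.swap_apply_left, Fin.zero_succAbove] at h1
          simp only [Function.comp]
          rw [← h1]
          by_cases hs : s = l
          · subst hs
            rw [Equiv.swap_apply_right, Fin.cons_zero, Function.update_self]
            rfl
          · rw [Equiv.swap_apply_of_ne_of_ne (Fin.succ_ne_zero s)
              (fun h2 => hs (Fin.succ_injective _ h2)), Fin.cons_succ, Function.update_of_ne hs]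
        rw [← hX.symD τ (fun s => ((Fin.cons (some c) z : Fin (k + 1) → Option B)
            (l.succ.succAbove s)).getD b0), e]
        ring
    · -- two `none`
      push Not at hz1
      obtain ⟨j, hj, hj'⟩ := hz1
      refine le_of_eq ?_
      symm
      refine Finset.sum_eq_zero fun i _ => ?_
      rw [Ep_two b0 E D G _ j.succ l.succ (fun h2 => hj (Fin.succ_injective _ h2))
        (by simpa using hj') (by simpa using hl), mul_zero]
  · intro Y
    rw [Ep_all b0 E D G _ (fun i => by simp)]
    rfl
  · intro Y i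
    rw [Ep_one b0 E D G _ i (by simp) (fun j hj => by
      rw [Function.update_of_ne hj]
      simp)]
    congr 2
    funext s
    rw [Function.update_of_ne (Fin.succAbove_ne i s)]
    rfl
  · exact fun Y i j hij hi hj => Ep_two b0 E D G Y i j hij hi hj

end Pool.Agent.Helper19.AD
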